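import Pool.Agent.Lib.MP_688fd0_co.SQ3.H22.StartK

/-!
Row PLX, class `true`, abstract part: if the component does not meet the special line, a token is brought in from the strand
`y = oth q v₀` through the rung `q`.
-/

set_option autoImplicit false

namespace Pool.Agent.Lib.MP_688fd0_co.SQ4.CV

open Pool.Agent.Lib.MP_688fd0_co.SQ2.V Pool.Agent.Lib.MP_688fd0_co.SQ3.V
open Puz

namespace PlX

section

variable {S R : Type} [Fintype S] [DecidableEq S] {P : Puz S R}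

/-- From the cap `c` through the cup `q` to the cap `r`, all at the strand `v`. -/
theorem via {Tok : Type} [Fintype Tok] (hK : P.RetK fun _ => True) {c r q : R} {v : S} {pos : Tok → S} {s₀ : St S R Tok}
    (h : P.WReach s₀ (c, pos)) (hc : P.Adj c q v) (hr : P.Adj r q v) :
    P.WReach s₀ (r, fun t => P.J r q v (P.J c q v (pos t))) := by
  have h1 : P.step q v ((r, fun t => P.J r q v (P.J c q v (pos t))) : St S R Tok) =
      P.step q v ((c, pos) : St S R Tok) := by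
    refine Prod.ext rfl (funext fun t => ?_)
    show P.T q (P.J r q v (P.J r q v (P.J c q v (pos t)))) = P.T q (P.J c q v (pos t))
    rw [J_J]
  have h2 : P.WReach ((r, fun t => P.J r q v (P.J c q v (pos t))) : St S R Tok)
      (P.step q v ((r, fun t => P.J r q v (P.J c q v (pos t))) : St S R Tok)) := WReach.step hr
  rw [h1] at h2
  exact h.trans ((WReach.step hc).trans (hK.ret Tok _ _ trivial h2))

/-- The start from the cup `f`. -/
theorem ofF (hK : P.RetK fun _ => True) {c f : R} {v : S} (hc : P.Adj c f v) :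
    P.WReach (P.st₁ f) (c, fun t : P.TokOf f => P.J c f v (t : S)) := by
  have h1 : P.step f v ((c, fun t : P.TokOf f => P.J c f v (t : S)) : St S R (P.TokOf f)) = P.st₁ f := by
    refine Prod.ext rfl (funext fun t => ?_)
    show P.T f (P.J c f v (P.J c f v (t : S))) = P.T f (t : S)
    rw [J_J]
  have h2 : P.WReach ((c, fun t : P.TokOf f => P.J c f v (t : S)) : St S R (P.TokOf f))
      (P.step f v ((c, fun t : P.TokOf f => P.J c f v (t : S)) : St S R (P.TokOf f))) := WReach.step hc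
  rw [h1] at h2
  exact hK.ret _ _ _ trivial h2

theorem J_fix {c q : R} {v t : S} (h1 : t ≠ P.oth q v) (h2 : t ≠ P.oth c v) : P.J c q v t = t :=
  Equiv.swap_apply_of_ne_of_ne h1 h2

theorem J_q {c q : R} {v : S} : P.J c q v (P.oth q v) = P.oth c v := Equiv.swap_apply_left _ _

theorem good_st₁ {f g : R} {l₀ : S} (h : P.Adj g f l₀) : P.Good (P.st₁ f) := by
  rw [← P.stb_step h]
  exact good_step h (Start.good_stb h)

/-- The sum if only one token counts. -/
theorem sum_one {F : Type} [Field F] {f : R} {A : S → Prop} [DecidablePred A] {d : S → F} {pos : P.TokOf f → S} {y : S}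
    (hy : ¬ P.On f y) (hA : A (pos ⟨y, hy⟩)) (h : ∀ t : P.TokOf f, (t : S) ≠ y → d t ≠ 0 → ¬ A (pos t)) :
    (∑ t, if A (pos t) then d t else 0) = d y := by
  rw [Finset.sum_eq_single (⟨y, hy⟩ : P.TokOf f), if_pos hA]
  · intro t _ ht
    by_cases h1 : d t = 0
    · rw [h1, ite_self]
    · exact if_neg (h t (fun h2 => ht (Subtype.ext h2)) h1)
  · intro h1
    exact absurd (Finset.mem_univ _) h1

/-- A token of weight `≠ 0` comes into `A` through the rung `q` at `v₀`. -/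
theorem start_swp {F : Type} [Field F] (hK : P.RetK fun _ => True) {f g : R} {l₀ : S} (ha : P.Adj g f l₀) {d : S → F}
    {A : S → Prop} {v₀ : S} (hv₀ : v₀ = l₀ ∨ v₀ = P.oth f l₀ ∨ v₀ = P.oth g l₀) {r₀ r₁ q : R} (h0 : P.On r₀ v₀)
    (h1 : P.On r₁ v₀) (hq : P.On q v₀) (hne : P.oth r₁ v₀ ≠ P.oth r₀ v₀) (hA0 : A (P.oth r₀ v₀)) (hA1 : A (P.oth r₁ v₀))
    (hdA : ∀ v, A v → d v = 0) (hd0 : d l₀ = 0) (hd1 : d (P.oth f l₀) = 0)
    (hd2 : d (P.oth g l₀) = 0) (hdq : d (P.oth q v₀) ≠ 0) :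
    ∃ s : St S R (P.TokOf f), P.WReach (P.st₁ f) s ∧ (s.1 = r₀ ∨ s.1 = r₁) ∧
      ∀ _ : DecidablePred A, (∑ t, if A (s.2 t) then d t else 0) ≠ 0 := by
  obtain ⟨y, hy⟩ : ∃ y, y = P.oth q v₀ := ⟨_, rfl⟩
  rw [← hy] at hdq
  have ny : ∀ v, d v = 0 → y ≠ v := fun v hv h => hdq (h ▸ hv)
  have hyA : ¬ A y := fun h => hdq (hdA y h)
  have nyf : ¬ P.On f y := by
    intro h
    rcases (on_iff ha.2.1 y).1 h with h | h
    · exact ny _ hd0 h
    · exact ny _ hd1 h
  have hq' : ∀ r, P.On r v₀ → d (P.oth r v₀) = 0 → P.Adj r q v₀ := fun r hr hd =>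
    ⟨hr, hq, fun h => ny _ hd (hy.trans h.symm)⟩
  -- the case of a strand on `f`
  by_cases hf : P.On f v₀
  · have hw0 : d (P.oth f v₀) = 0 := by
      rcases (on_iff ha.2.1 v₀).1 hf with h | h
      · rw [h]; exact hd1
      · rw [h, Start.oth_oth ha.2.1]; exact hd0
    -- the computation
    have key : ∀ r r' : R, P.On r v₀ → P.On r' v₀ → P.oth r' v₀ ≠ P.oth r v₀ → A (P.oth r v₀) → A (P.oth r' v₀) →
        P.oth r v₀ ≠ P.oth f v₀ → ∃ s : St S R (P.TokOf f), P.WReach (P.st₁ f) s ∧ s.1 = r' ∧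
          ∀ _ : DecidablePred A, (∑ t, if A (s.2 t) then d t else 0) ≠ 0 := by
      intro r r' hr hr' hrr hAr hAr' hrf
      have e1 := ofF hK (c := r) (f := f) (v := v₀) ⟨hr, hf, hrf⟩
      have e2 := via hK e1 (hq' r hr (hdA _ hAr)) (hq' r' hr' (hdA _ hAr'))
      refine ⟨_, e2, rfl, fun _ => ?_⟩
      have hfix : ∀ t : S, d t ≠ 0 → t ≠ y → P.J r' q v₀ (P.J r q v₀ (P.J r f v₀ t)) = t := by
        intro t ht hty
        have nt : ∀ v, d v = 0 → t ≠ v := fun v hv h => ht (h ▸ hv)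
        rw [J_fix (nt _ hw0) (nt _ (hdA _ hAr)), J_fix (hy ▸ hty) (nt _ (hdA _ hAr)),
          J_fix (hy ▸ hty) (nt _ (hdA _ hAr'))]
      have hyy : P.J r' q v₀ (P.J r q v₀ (P.J r f v₀ y)) = P.oth r v₀ := by
        rw [J_fix (ny _ hw0) (ny _ (hdA _ hAr)), hy, J_q, J_fix ?_ hrr.symm]
        rw [← hy]
        exact (ny _ (hdA _ hAr)).symm
      rw [sum_one (y := y) nyf]
      · exact hdq
      · show A (P.J r' q v₀ (P.J r q v₀ (P.J r f v₀ y)))
        rw [hyy]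
        exact hAr
      · intro t ht hdt
        show ¬ A (P.J r' q v₀ (P.J r q v₀ (P.J r f v₀ (t : S))))
        rw [hfix _ hdt ht]
        exact fun h => hdt (hdA _ h)
    by_cases h2 : P.oth r₀ v₀ = P.oth f v₀
    · obtain ⟨s, s1, s2, s3⟩ := key r₁ r₀ h1 h0 hne.symm hA1 hA0 fun h3 => hne (h3.trans h2.symm)
      exact ⟨s, s1, Or.inl s2, s3⟩
    · obtain ⟨s, s1, s2, s3⟩ := key r₀ r₁ h0 h1 hne hA0 hA1 h2
      exact ⟨s, s1, Or.inr s2, s3⟩
  · -- `v₀` is the strand `l₂`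
    have hv : v₀ = P.oth g l₀ := by
      rcases hv₀ with h | h | h
      · exact absurd (h ▸ ha.2.1) hf
      · exact absurd (h ▸ on_oth f l₀) hf
      · exact h
    have hgv : P.On g v₀ := hv ▸ on_oth g l₀
    have hog : P.oth g v₀ = l₀ := by rw [hv, Start.oth_oth ha.1]
    have hb : P.WReach (P.st₁ f) (P.stb f g l₀) := (Back.of_ret hK trivial ha).stb
    have hpb : ∀ t : P.TokOf f, d t ≠ 0 → (P.stb f g l₀).2 t = (t : S) := by
      intro t ht
      show (if (t : S) = P.oth g l₀ then P.oth f l₀ else (t : S)) = (t : S)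
      exact if_neg fun h => ht (by rw [h]; exact hd2)
    by_cases hA : A l₀
    · -- the token goes to `l₀`
      have key : ∀ r : R, P.On r v₀ → A (P.oth r v₀) → P.oth r v₀ ≠ l₀ → ∃ s : St S R (P.TokOf f),
          P.WReach (P.st₁ f) s ∧ s.1 = r ∧ ∀ _ : DecidablePred A, (∑ t, if A (s.2 t) then d t else 0) ≠ 0 := by
        intro r hr hAr hrl
        have e1 := via hK (pos := (P.stb f g l₀).2) (c := g) hb (hq' g hgv (by rw [hog]; exact hd0))
          (hq' r hr (hdA _ hAr))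
        refine ⟨_, e1, rfl, fun _ => ?_⟩
        rw [sum_one (y := y) nyf]
        · exact hdq
        · show A (P.J r q v₀ (P.J g q v₀ ((P.stb f g l₀).2 ⟨y, nyf⟩)))
          rw [hpb ⟨y, nyf⟩ hdq]
          show A (P.J r q v₀ (P.J g q v₀ y))
          rw [hy, J_q, hog, J_fix ?_ hrl.symm]
          · exact hA
          · rw [← hy]
            exact (ny _ hd0).symm
        · intro t ht hdt
          show ¬ A (P.J r q v₀ (P.J g q v₀ ((P.stb f g l₀).2 t)))
          have nt : ∀ v, d v = 0 → (t : S) ≠ v := fun v hv h => hdt (h ▸ hv)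
          rw [hpb t hdt, J_fix (hy ▸ ht) (nt _ (by rw [hog]; exact hd0)), J_fix (hy ▸ ht) (nt _ (hdA _ hAr))]
          exact fun h => hdt (hdA _ h)
      by_cases h2 : P.oth r₀ v₀ = l₀
      · obtain ⟨s, s1, s2, s3⟩ := key r₁ h1 hA1 fun h3 => hne (h3.trans h2.symm)
        exact ⟨s, s1, Or.inr s2, s3⟩
      · obtain ⟨s, s1, s2, s3⟩ := key r₀ h0 hA0 h2
        exact ⟨s, s1, Or.inl s2, s3⟩
    · have n0 : P.oth g v₀ ≠ P.oth r₁ v₀ := fun h => hA (by rw [← hog, h]; exact hA1)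
      have e1 := via hK (pos := (P.stb f g l₀).2) (c := g) (q := r₁) (r := r₀) (v := v₀) hb ⟨hgv, h1, n0⟩ ⟨h0, h1, hne.symm⟩
      have e2 := via hK e1 (hq' r₀ h0 (hdA _ hA0)) (hq' r₁ h1 (hdA _ hA1))
      refine ⟨_, e2, Or.inr rfl, fun _ => ?_⟩
      have hl1 : ∀ t : S, d t ≠ 0 → P.J r₀ r₁ v₀ (P.J g r₁ v₀ t) = t := by
        intro t ht
        have nt : ∀ v, d v = 0 → t ≠ v := fun v hv h => ht (h ▸ hv)
        rw [J_fix (nt _ (hdA _ hA1)) (nt _ (by rw [hog]; exact hd0)), J_fix (nt _ (hdA _ hA1)) (nt _ (hdA _ hA0))]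
      rw [sum_one (y := y) nyf]
      · exact hdq
      · show A (P.J r₁ q v₀ (P.J r₀ q v₀ (P.J r₀ r₁ v₀ (P.J g r₁ v₀ ((P.stb f g l₀).2 ⟨y, nyf⟩)))))
        rw [hpb ⟨y, nyf⟩ hdq]
        show A (P.J r₁ q v₀ (P.J r₀ q v₀ (P.J r₀ r₁ v₀ (P.J g r₁ v₀ y))))
        rw [hl1 y hdq, hy, J_q, J_fix ?_ hne.symm]
        · exact hA0
        · rw [← hy]
          exact (ny _ (hdA _ hA0)).symm
      · intro t ht hdt
        show ¬ A (P.J r₁ q v₀ (P.J r₀ q v₀ (P.J r₀ r₁ v₀ (P.J g r₁ v₀ ((P.stb f g l₀).2 t)))))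
        have nt : ∀ v, d v = 0 → (t : S) ≠ v := fun v hv h => hdt (h ▸ hv)
        rw [hpb t hdt, hl1 _ hdt, J_fix (hy ▸ ht) (nt _ (hdA _ hA0)), J_fix (hy ▸ ht) (nt _ (hdA _ hA1))]
        exact fun h => hdt (hdA _ h)

end

end PlX

end Pool.Agent.Lib.MP_688fd0_co.SQ4.CV
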