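import Pool.Agent.Lib.MP_688fd0_co.SQ4.H53.IfaceP
import Pool.Agent.Lib.MP_688fd0_co.SQ4.H53.PlK
import Pool.Agent.Lib.MP_688fd0_co.SQ4.H22.Swp

/-!
Row PLX from COMPX, COUNTX and NEART.
-/

set_option autoImplicit false

namespace Pool.Agent.Lib.MP_688fd0_co.SQ4.CV

open Pool.Agent.Lib.MP_688fd0_co.OSF Pool.Agent.Lib.MP_688fd0_co.SQ2 Pool.Agent.Lib.MP_688fd0_co.SQ3
open Pool.Agent.Lib.MP_688fd0_co.SQ4
open SQ2.V (Puz)
open SQ2.V.Puz (St)

namespace PlX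

section

variable {Q : Type} [Group Q] [DecidableEq Q] {B : Lb.{0, 0} Q} {a b : B.L} {eps : Q →* ℤˣ} {D : Subgroup Q} {z : Q}
  {k : ℕ} {H : HypC B a b eps D z k} {F : Finset Q}

/-- `v` and `u` are the ends of `r`. -/
def Ends (T : Pth H F) {c : T.C} (r : T.Rc c) (v u : {v // v ∈ F}) : Prop :=
  ((T.X c).x r = v ∧ (T.X c).y r = u) ∨ ((T.X c).x r = u ∧ (T.X c).y r = v)

theorem on_of {T : Pth H F} {c : T.C} {r : T.Rc c} {v u : {v // v ∈ F}} (h : Ends T r v u) :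
    T.P.On ⟨c, r⟩ v ∧ T.P.oth ⟨c, r⟩ v = u := by
  have hx' : T.P.x ⟨c, r⟩ = (T.X c).x r := rfl
  have hy' : T.P.y ⟨c, r⟩ = (T.X c).y r := rfl
  rcases h with ⟨h1, h2⟩ | ⟨h1, h2⟩
  · refine ⟨Or.inl (by rw [hx', h1]), ?_⟩
    unfold Puz.oth
    rw [if_pos (by rw [hx', h1]), hy', h2]
  · refine ⟨Or.inr (by rw [hy', h2]), ?_⟩
    unfold Puz.oth
    rw [if_neg, hx', h1]
    intro h
    exact T.P.ne ⟨c, r⟩ (h.symm.trans (by rw [hy', h2]))

theorem ends_of {T : Pth H F} {c : T.C} {r : T.Rc c} {v : {v // v ∈ F}}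
    (h : v = (T.X c).x r ∨ v = (T.X c).y r) : ∃ u, Ends T r v u := by
  rcases h with rfl | rfl
  · exact ⟨_, Or.inl ⟨rfl, rfl⟩⟩
  · exact ⟨_, Or.inr ⟨rfl, rfl⟩⟩

/-- A component is closed. -/
theorem comp_iff {T : Pth H F} {c : T.C} {v₀ : {v // v ∈ F}} {A : {v // v ∈ F} → Prop}
    (hA : T.IsComp (fun c' => c' = c) v₀ A) (r : T.Rc c) : A ((T.X c).x r) ↔ A ((T.X c).y r) := by
  rw [hA, hA]
  exact ⟨fun h => h.tail ⟨c, rfl, r, Or.inl ⟨rfl, rfl⟩⟩, fun h => h.tail ⟨c, rfl, r, Or.inr ⟨rfl, rfl⟩⟩⟩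

theorem ends_mem {T : Pth H F} {c : T.C} {A : {v // v ∈ F} → Prop} (hA : ∀ r, A ((T.X c).x r) ↔ A ((T.X c).y r))
    {r : T.Rc c} {v u : {v // v ∈ F}} (hr : Ends T r v u) (hv : A v) : A u ∧ A ((T.X c).x r) := by
  rcases hr with ⟨h1, h2⟩ | ⟨h1, h2⟩
  · have h3 := (hA r).1 (by rw [h1]; exact hv)
    exact ⟨by rwa [h2] at h3, by rw [h1]; exact hv⟩
  · have h3 := (hA r).2 (by rw [h2]; exact hv)
    exact ⟨by rwa [h1] at h3, h3⟩

/-- Two rungs with different other ends. -/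
theorem two_rungs {T : Pth H F} {c : T.C} {s : B.L} {n : ℤ} {M : Set Q} {v y : {v // v ∈ F}} {h : ℕ}
    (hX : FamX H _ _ (T.X c) s n M (fun u => Sh D (v : Q) (u : Q)) (fun u => Sh D (y : Q) (u : Q)) (T.wd c) (T.In c) h)
    {v₀ : {v // v ∈ F}} (hv₀ : Sh D (v : Q) (v₀ : Q) ∨ Sh D (y : Q) (v₀ : Q)) :
    ∃ (r r' : T.Rc c) (u u' : {v // v ∈ F}), Ends T r v₀ u ∧ Ends T r' v₀ u' ∧ u' ≠ u := by
  obtain ⟨d, hd, h1⟩ := hX.deg
  obtain ⟨h2, h3⟩ := h1 v₀ hv₀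
  obtain ⟨r, hr⟩ := Set.nonempty_of_ncard_ne_zero (by rw [h2]; omega : _ ≠ 0)
  obtain ⟨r', hr'⟩ := Set.nonempty_of_ncard_ne_zero (by rw [h3]; omega : _ ≠ 0)
  obtain ⟨u, hu⟩ := ends_of hr.2
  obtain ⟨u', hu'⟩ := ends_of hr'.2
  refine ⟨r, r', u, u', hu, hu', ?_⟩
  rintro rfl
  refine hX.par r r' hr.1 hr'.1 ?_
  rcases hu with ⟨a1, a2⟩ | ⟨a1, a2⟩ <;> rcases hu' with ⟨b1, b2⟩ | ⟨b1, b2⟩
  · exact Or.inl ⟨by rw [a1, b1], by rw [a2, b2]⟩
  · exact Or.inr ⟨by rw [a1, b2], by rw [a2, b1]⟩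
  · exact Or.inr ⟨by rw [a1, b2], by rw [a2, b1]⟩
  · exact Or.inl ⟨by rw [a1, b1], by rw [a2, b2]⟩

/-- The sum over `A` is not zero. -/
theorem strt_sum {T : Pth H F} {c : T.C} {A : {v // v ∈ F} → Prop} {p : ℕ} [Fact p.Prime] {w : Q → ZMod p}
    {x s₁ s₂ : Q} {ρ h : ℕ} (hok : T.Ok x s₁ s₂ ρ h) (hret : T.P.RetK fun _ => True)
    (hg : T.GoodC c A (fun _ => True) (ZMod p)) (hw₁ : w s₁ = - w x) (hw₂ : w s₂ = - w x) {v₀ : {v // v ∈ F}}
    (hv₀ : (v₀ : Q) = x ∨ (v₀ : Q) = s₁ ∨ (v₀ : Q) = s₂) (hA : A v₀)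
    (hcl : ∀ r, A ((T.X c).x r) ↔ A ((T.X c).y r)) {r₀ r₁ : T.Rc c} {u₀ u₁ : {v // v ∈ F}} (h0 : Ends T r₀ v₀ u₀)
    (h1 : Ends T r₁ v₀ u₁) (hne : u₁ ≠ u₀) (hs : sumA A w ≠ 0)
    (hs0 : sumA A w - w (v₀ : Q) - w (u₀ : Q) ≠ 0) : T.StrtC c A (fun _ => True) w := by
  classical
  obtain ⟨-, Pb, E, iR, hES, hER, -, -⟩ := hg
  have hm0 := ends_mem hcl h0 hA
  have hm1 := ends_mem hcl h1 hA
  obtain ⟨o0, q0⟩ := on_of h0
  obtain ⟨o1, q1⟩ := on_of h1
  let vb : {v // A v} := ⟨v₀, hA⟩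
  let b0 : {r : T.Rc c // A ((T.X c).x r)} := ⟨r₀, hm0.2⟩
  let b1 : {r : T.Rc c // A ((T.X c).x r)} := ⟨r₁, hm1.2⟩
  have hvb : E.iS vb = v₀ := hES vb
  have hb0 : E.iR b0 = ⟨c, r₀⟩ := hER b0
  have hb1 : E.iR b1 = ⟨c, r₁⟩ := hER b1
  have on0 : Pb.On b0 vb := (E.on_iff b0 vb).1 (by rw [hb0, hvb]; exact o0)
  have on1 : Pb.On b1 vb := (E.on_iff b1 vb).1 (by rw [hb1, hvb]; exact o1)
  have ot0 : E.iS (Pb.oth b0 vb) = u₀ := by rw [← E.oth_eq, hb0, hvb]; exact q0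
  have ot1 : E.iS (Pb.oth b1 vb) = u₁ := by rw [← E.oth_eq, hb1, hvb]; exact q1
  have hrg : ∀ u, u ∈ Set.range E.iS ↔ A u := by
    intro u
    constructor
    · rintro ⟨u', rfl⟩
      rw [hES]
      exact u'.2
    · intro hu
      exact ⟨⟨u, hu⟩, hES _⟩
  have hsum : (∑ s, w (E.iS s : Q)) = sumA A w := by
    rw [← SQ2.V.Start.sum_range (F := ZMod p) E.inj (fun u : {v // v ∈ F} => w (u : Q))]
    unfold sumA
    refine Finset.sum_congr rfl fun u _ => ?_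
    by_cases hu : A u
    · rw [if_pos hu, if_pos ((hrg u).2 hu)]
    · rw [if_neg hu, if_neg fun h => hu ((hrg u).1 h)]
  have hl₀ := hok.hx
  have hv₀' : E.iS vb = T.l₀ ∨ E.iS vb = T.P.oth T.f T.l₀ ∨ E.iS vb = T.P.oth T.g T.l₀ := by
    rw [hvb]
    rcases hv₀ with h | h | h
    · exact Or.inl (Subtype.ext (h.trans hok.hx.symm))
    · exact Or.inr (Or.inl (Subtype.ext (h.trans hok.h₁.symm)))
    · exact Or.inr (Or.inr (Subtype.ext (h.trans hok.h₂.symm)))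
  obtain ⟨s, r, h2, h3, -, h4, h5, h6⟩ := SQ3.V.startwK _ _ _ _ (ZMod p) T.P Pb E (fun _ => True)
    (fun u : {v // v ∈ F} => w (u : Q)) T.f T.g T.l₀ vb b0 b1 hret trivial hok.adj
    (by rw [hok.h₁, hok.hx]; exact hw₁) (by rw [hok.h₂, hok.hx]; exact hw₂) hv₀' on0
    (fun _ => ⟨on1, fun h => hne (by rw [← ot1, ← ot0, h])⟩) (fun _ => ⟨trivial, fun _ => trivial⟩)
    (by rw [hsum]; exact hs) (fun _ => by rw [hsum, hvb, ot0]; exact hs0)
  refine ⟨s, h2, ⟨r.1, ?_, r.2, trivial⟩, h4, h5, fun _ => ?_⟩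
  · rw [h3]
    exact hER r
  · intro h7
    apply h6
    refine (Finset.sum_congr rfl fun t _ => ?_).trans h7
    by_cases hu : A (s.2 t)
    · rw [if_pos hu, if_pos ((hrg _).2 hu)]
    · rw [if_neg hu, if_neg fun h => hu ((hrg _).1 h)]

/-- The weights vanish on `A`; a token comes in from the strand `y`. -/
theorem strt_swp {T : Pth H F} {c : T.C} {A : {v // v ∈ F} → Prop} {p : ℕ} [Fact p.Prime] {w : Q → ZMod p}
    {x s₁ s₂ : Q} {ρ h : ℕ} (hok : T.Ok x s₁ s₂ ρ h) (hret : T.P.RetK fun _ => True)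
    (hw₀ : w x = 0) (hw₁ : w s₁ = 0) (hw₂ : w s₂ = 0) {v₀ : {v // v ∈ F}}
    (hv₀ : (v₀ : Q) = x ∨ (v₀ : Q) = s₁ ∨ (v₀ : Q) = s₂) (hA : A v₀)
    (hcl : ∀ r, A ((T.X c).x r) ↔ A ((T.X c).y r)) {r₀ r₁ : T.Rc c} {u₀ u₁ : {v // v ∈ F}} (h0 : Ends T r₀ v₀ u₀)
    (h1 : Ends T r₁ v₀ u₁) (hne : u₁ ≠ u₀) (hz : ∀ u, A u → w (u : Q) = 0) {c₁ : T.C} {q : T.Rc c₁}
    {y : {v // v ∈ F}} (hq : Ends T q v₀ y) (hy : w (y : Q) ≠ 0) : T.StrtC c A (fun _ => True) w := by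
  have hm0 := ends_mem hcl h0 hA
  have hm1 := ends_mem hcl h1 hA
  obtain ⟨o0, q0⟩ := on_of h0
  obtain ⟨o1, q1⟩ := on_of h1
  obtain ⟨oq, qq⟩ := on_of hq
  have hv₀' : v₀ = T.l₀ ∨ v₀ = T.P.oth T.f T.l₀ ∨ v₀ = T.P.oth T.g T.l₀ := by
    rcases hv₀ with h | h | h
    · exact Or.inl (Subtype.ext (h.trans hok.hx.symm))
    · exact Or.inr (Or.inl (Subtype.ext (h.trans hok.h₁.symm)))
    · exact Or.inr (Or.inr (Subtype.ext (h.trans hok.h₂.symm)))
  obtain ⟨s, h2, h3, h4⟩ := start_swp (F := ZMod p) hret hok.adj (d := fun u : {v // v ∈ F} => w (u : Q)) (A := A) hv₀' o0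
    o1 oq (by rw [q0, q1]; exact hne) (by rw [q0]; exact hm0.1) (by rw [q1]; exact hm1.1) hz
    (by rw [hok.hx]; exact hw₀) (by rw [hok.h₁]; exact hw₁) (by rw [hok.h₂]; exact hw₂) (by rw [qq]; exact hy)
  have hgd := h2.good (good_st₁ hok.adj)
  refine ⟨s, h2, ?_, hgd.1, hgd.2, h4⟩
  rcases h3 with h3 | h3
  · exact ⟨r₀, h3, hm0.2, trivial⟩
  · exact ⟨r₁, h3, hm1.2, trivial⟩

end

end PlX

open PlX in
open Plc in
/-- PLX. -/
theorem plX (hC : CompXS) (h0 : CountXS) (h1 : NearTS) : PlXS := by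
  classical
  intro Q _ _ B a b eps D z k H c W hS hP hL hW d cl N x s₁ s₂ F rk hV T ρ h hok hret hfull γ hγ p hp h4 s hs
  have hθ : ∀ y y', lnU H.up y = lnU H.up y' → (wcl cl d γ : Q → ZMod p) y = wcl cl d γ y' := by
    intro y y' hyy
    refine line_const H (θ := (wcl cl d γ : Q → ZMod p)) (fun y => ?_) hyy
    unfold wcl
    rw [hV.c_line, hV.d_line]
  cases γ with
  | false =>
    obtain ⟨i, c', n, v, y, v₀, hX, hY, hv₀, hA⟩ := h0 Q B a b eps D z k H c W hS hP hL hW d cl N x s₁ s₂ F rk hV T h hfull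
      p hp h4 s hs
    let A : {v // v ∈ F i} → Prop := fun u => Relation.ReflTransGen ((T i).Jn fun c'' => c'' = c') v₀ u
    have hAc : (T i).IsComp (fun c'' => c'' = c') v₀ A := fun _ => Iff.rfl
    refine ⟨i, c', n, v, y, v₀, A, hX, hY, hAc, ?_⟩
    obtain ⟨g1, r₀, u₀, g2, g3⟩ := hA A hAc
    have hw : ∀ s', cl s' = false → d s' = !d (x i) → (wcl cl d false : Q → ZMod p) s' = - wcl cl d false (x i) := by
      intro s' h5 h6
      unfold wcl
      rw [if_pos h5, if_pos (hV.c₀ i), h6]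
      cases d (x i) <;> simp
    obtain ⟨r, r', u, u', e1, e2, e3⟩ := two_rungs hX hY
    have hg := hC Q B a b eps D z k H (F i) (T i) (hV.fr i).inv c' s n _ v y h hX v₀ A hAc hY p hp h4
    by_cases h5 : u = u₀
    · exact strt_sum (hok i) (hret i) hg (hw _ (hV.c₁ i) (hV.d₁ i)) (hw _ (hV.c₂ i) (hV.d₂ i)) hv₀
        Relation.ReflTransGen.refl (comp_iff hAc) g2 e2 (by rw [← h5]; exact e3) g1 g3
    · exact strt_sum (hok i) (hret i) hg (hw _ (hV.c₁ i) (hV.d₁ i)) (hw _ (hV.c₂ i) (hV.d₂ i)) hv₀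
        Relation.ReflTransGen.refl (comp_iff hAc) g2 e1 h5 g1 g3
  | true =>
    obtain ⟨i, v₀, yt, hv₀, hyt, ⟨c₁, q, hq⟩, c', n, y, hX⟩ := h1 Q B a b eps D z k H c W hS hP hL hW d cl N x s₁ s₂ F rk hV
      T h hfull hγ s hs
    let A : {v // v ∈ F i} → Prop := fun u => Relation.ReflTransGen ((T i).Jn fun c'' => c'' = c') v₀ u
    have hAc : (T i).IsComp (fun c'' => c'' = c') v₀ A := fun _ => Iff.rfl
    have hY : Sh D (v₀ : Q) (v₀ : Q) ∨ Sh D (y : Q) (v₀ : Q) := Or.inl (Sh.refl _)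
    refine ⟨i, c', n, v₀, y, v₀, A, hX, hY, hAc, ?_⟩
    obtain ⟨r, r', u, u', e1, e2, e3⟩ := two_rungs hX hY
    have hg := hC Q B a b eps D z k H (F i) (T i) (hV.fr i).inv c' s n _ v₀ y h hX v₀ A hAc hY p hp h4
    have hA0 : A v₀ := Relation.ReflTransGen.refl
    have hw0 : ∀ s' : Q, cl s' = false → (wcl cl d true : Q → ZMod p) s' = 0 := by
      intro s' h5
      unfold wcl
      rw [if_neg (by rw [h5]; decide)]
    -- the value on the special line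
    have hval : ∀ s' : Q, (wcl cl d true : Q → ZMod p) s' = if cl s' = true then wcl cl d true (yt : Q) else 0 := by
      intro s'
      by_cases h5 : cl s' = true
      · rw [if_pos h5]
        exact hθ _ _ (hV.one _ _ h5 hyt)
      · rw [if_neg h5]
        exact hw0 s' (by simpa using h5)
    have hθt : (wcl cl d true : Q → ZMod p) (yt : Q) ≠ 0 := by
      have := hp.out.one_lt
      have : Fact (1 < p) := ⟨this⟩
      unfold wcl
      rw [if_pos hyt]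
      split_ifs
      · exact one_ne_zero
      · exact neg_ne_zero.2 one_ne_zero
    by_cases hm : ∃ u, A u ∧ cl (u : Q) = true
    · -- `A` meets the special line
      have hw : ∀ s', cl s' = false → (wcl cl d true : Q → ZMod p) s' = - wcl cl d true (x i) := by
        intro s' h5
        rw [hw0 s' h5, hw0 _ (hV.c₀ i), neg_zero]
      obtain ⟨S, hSd⟩ : ∃ S : Finset {v // v ∈ F i}, S = Finset.univ.filter fun u => A u ∧ cl (u : Q) = true := ⟨_, rfl⟩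
      have hsum : sumA A (wcl cl d true : Q → ZMod p) = (S.card : ZMod p) * wcl cl d true (yt : Q) := by
        unfold sumA
        rw [← nsmul_eq_mul, ← Finset.sum_const, hSd, Finset.sum_filter]
        refine Finset.sum_congr rfl fun u _ => ?_
        by_cases h5 : A u
        · rw [if_pos h5, hval]
          by_cases h6 : cl (u : Q) = true
          · rw [if_pos h6, if_pos ⟨h5, h6⟩]
          · rw [if_neg h6, if_neg fun h => h6 h.2]
        · rw [if_neg h5, if_neg fun h => h5 h.1]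
      have hSc : S.card ≤ 4 * k := by
        refine le_trans ?_ hg.1
        rw [Nat.card_eq_fintype_card, Fintype.card_subtype, hSd]
        refine Finset.card_le_card fun u hu => ?_
        rw [Finset.mem_filter] at hu ⊢
        exact ⟨hu.1, hu.2.1⟩
      have hne : ∀ m : ℕ, 0 < m → m ≤ 4 * k → ((m : ZMod p)) * wcl cl d true (yt : Q) ≠ 0 := by
        intro m hm0 hm1
        refine mul_ne_zero ?_ hθt
        rw [Ne, CharP.cast_eq_zero_iff (ZMod p) p]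
        exact Nat.not_dvd_of_pos_of_lt hm0 (by omega)
      have hS0 : 0 < S.card := by
        obtain ⟨u, h5, h6⟩ := hm
        exact Finset.card_pos.2 ⟨u, by rw [hSd, Finset.mem_filter]; exact ⟨Finset.mem_univ _, h5, h6⟩⟩
      have hs1 : sumA A (wcl cl d true : Q → ZMod p) ≠ 0 := by
        rw [hsum]
        exact hne _ hS0 hSc
      have hv0 : (wcl cl d true : Q → ZMod p) (v₀ : Q) = 0 := by
        apply hw0
        rcases hv₀ with h | h | h
        · rw [h]; exact hV.c₀ i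
        · rw [h]; exact hV.c₁ i
        · rw [h]; exact hV.c₂ i
      -- a good rung
      have key : ∀ (r r' : (T i).Rc c') (u u' : {v // v ∈ F i}), Ends (T i) r v₀ u → Ends (T i) r' v₀ u' → u' ≠ u →
          (cl (u : Q) = true → cl (u' : Q) = true) → (T i).StrtC c' A (fun _ => True) (wcl cl d true : Q → ZMod p) := by
        intro r r' u u' e1 e2 e3 e4
        refine strt_sum (hok i) (hret i) hg (hw _ (hV.c₁ i)) (hw _ (hV.c₂ i)) hv₀ hA0 (comp_iff hAc) e1 e2 e3 hs1 ?_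
        rw [hv0, sub_zero, hsum, hval (u : Q)]
        by_cases h5 : cl (u : Q) = true
        · rw [if_pos h5, ← sub_one_mul]
          have h6 : 1 < S.card := by
            rw [Finset.one_lt_card]
            refine ⟨u, ?_, u', ?_, e3.symm⟩
            · rw [hSd, Finset.mem_filter]
              exact ⟨Finset.mem_univ _, (ends_mem (comp_iff hAc) e1 hA0).1, h5⟩
            · rw [hSd, Finset.mem_filter]
              exact ⟨Finset.mem_univ _, (ends_mem (comp_iff hAc) e2 hA0).1, e4 h5⟩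
          have h7 : ((S.card : ZMod p) - 1) = ((S.card - 1 : ℕ) : ZMod p) := by
            rw [Nat.cast_sub (by omega), Nat.cast_one]
          rw [h7]
          exact hne _ (by omega) (by omega)
        · rw [if_neg h5, sub_zero]
          exact hne _ hS0 hSc
      by_cases h5 : cl (u : Q) = true ∧ ¬ cl (u' : Q) = true
      · exact key r' r u' u e2 e1 e3.symm fun h => absurd h h5.2
      · exact key r r' u u' e1 e2 e3 fun h => by
          by_contra h6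
          exact h5 ⟨h, h6⟩
    · refine strt_swp (hok i) (hret i) (hw0 _ (hV.c₀ i)) (hw0 _ (hV.c₁ i)) (hw0 _ (hV.c₂ i)) hv₀ hA0 (comp_iff hAc) e1 e2
        e3 (fun u hu => ?_) (q := q) (y := yt) hq hθt
      rw [hval, if_neg fun h => hm ⟨u, hu, h⟩]

end Pool.Agent.Lib.MP_688fd0_co.SQ4.CV
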